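import Pool.Agent.Helper57_K9.Stmts
import Pool.Agent.Helper3_K9.Psi
import Pool.Agent.Helper25_K9.ADA
import Pool.Agent.Helper30_KF.Mul
import Pool.Agent.Helper94_PP.LemQ

/-!
# Squad K9, row INT: the numbers `A_χ(p)` are in `ℤ[ζ]`
-/

open scoped BigOperators

set_option linter.unusedSectionVars false

noncomputable section

namespace Pool.Agent.PP.K9.H77

open Pool.Agent.Helper51_AWC Pool.Agent.Helper79_WRA Pool.Agent.PP Pool.Agent.PP.KF

/-- a central element of order dividing `ℓ` acts by a power of `ζ` -/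
theorem cent_pow {C : Type} [Group C] {θ : C → ℂ} (hθ : θ ∈ Irr C) {z : C}
    (hz : ∀ c, z * c = c * z) {ℓ : ℕ} (hℓ : 0 < ℓ) (hzℓ : z ^ ℓ = 1) {ζ : ℂ}
    (hζ : IsPrimitiveRoot ζ ℓ) :
    ∃ i, i < ℓ ∧ ∀ (j : ℕ) (c : C), θ (z ^ j * c) = ζ ^ (i * j) * θ c := by
  have hne := irr_one_ne hθ
  obtain ⟨n, ρ, hρ, rfl⟩ := hθ
  obtain ⟨k, hk⟩ := schur_scalar ρ (ρ z) (by
    intro g
    have h1 : ρ z * ρ g = ρ g * ρ z := by rw [← map_mul, ← map_mul, hz]
    exact h1)
  have h1 : ∀ c, ρ.character (z * c) = k * ρ.character c := by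
    intro c
    show LinearMap.trace ℂ _ (ρ (z * c)) = k * LinearMap.trace ℂ _ (ρ c)
    rw [map_mul, hk, smul_mul_assoc, map_smul, smul_eq_mul]
    rfl
  have h2 : ∀ (j : ℕ) (c : C), ρ.character (z ^ j * c) = k ^ j * ρ.character c := by
    intro j
    induction j with
    | zero => intro c; rw [pow_zero, pow_zero, one_mul, one_mul]
    | succ j ih => intro c; rw [pow_succ', mul_assoc, h1, ih, pow_succ']; ring
  have h3 : k ^ ℓ = 1 := by
    have e1 := h2 ℓ 1
    rw [hzℓ, one_mul] at e1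
    exact (mul_right_cancel₀ hne (by rw [one_mul]; exact e1)).symm
  have : NeZero ℓ := ⟨hℓ.ne'⟩
  obtain ⟨i, hi, rfl⟩ := hζ.eq_pow_of_pow_eq_one h3
  exact ⟨i, hi, fun j c => by rw [h2, pow_mul]⟩

theorem zi_infl {A B : Type} [Group A] [Group B] {p : A →* B} (hp : Function.Surjective p)
    {f : B → ℂ} (hf : f ∈ ZI B) : (fun a => f (p a)) ∈ ZI A := by
  unfold ZI at hf
  induction hf using AddSubgroup.closure_induction with
  | mem θ hθ => exact AddSubgroup.subset_closure (H3.irr_infl hp hθ)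
  | zero => exact AddSubgroup.zero_mem _
  | add f g _ _ hf hg => exact AddSubgroup.add_mem _ hf hg
  | neg f _ hf => exact AddSubgroup.neg_mem _ hf

theorem zi_res {G : Type} [Group G] [Finite G] (C : Subgroup G) {χ : G → ℂ} (hχ : χ ∈ Irr G) :
    (fun c : C => χ c) ∈ ZI C := by
  classical
  have := Fintype.ofFinite C
  apply H25.mem_zi_of
  · intro x y
    exact irr_conj hχ (x : G) (y : G)
  · intro η hη
    obtain ⟨m, hm⟩ := H30.mult_int C hχ hη
    refine ⟨m, ?_⟩
    rw [← hm, ipn, finsum_eq_sum_of_fintype]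
    congr 1
    refine Finset.sum_congr rfl fun c _ => ?_
    rw [Pool.Agent.PP.H94.irr_star hη]

section main

variable {ℓ : ℕ} {G H : Type} [Group G] [Finite G] [Group H] [Finite H] {u : G} {π : Cu u →* H}

/-- `u` as an element of its centraliser -/
def uC (u : G) : Cu u := ⟨u, Subgroup.mem_centralizer_singleton_iff.2 rfl⟩

theorem uC_comm (u : G) (c : Cu u) : uC u * c = c * uC u := by
  apply Subtype.ext
  exact (Subgroup.mem_centralizer_singleton_iff.1 c.2).symm

theorem orderOf_uC (h : Qt ℓ u π) : orderOf (uC u) = ℓ := by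
  rw [← Subgroup.orderOf_coe]
  exact h.ord

theorem pi_pow_uC (h : Qt ℓ u π) (j : ℕ) (s : Cu u) : π (uC u ^ j * s) = π s := by
  have h1 : π (uC u) = 1 := (h.ker _).2 (Subgroup.mem_zpowers u)
  rw [map_mul, map_pow, h1, one_pow, one_mul]

/-- the decomposition of the elements with regular image -/
theorem exists_decomp (hℓ : ℓ.Prime) (h : Qt ℓ u π) {N : ℕ}
    (hN : ∀ g : Cu u, Reg ℓ (g ^ N) ∧ ∃ n : ℕ, ((g ^ N)⁻¹ * g) ^ ℓ ^ n = 1) {c : Cu u}
    (hc : Reg ℓ (π c)) : ∃ j < ℓ, c = uC u ^ j * c ^ N := by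
  classical
  obtain ⟨h1, n, h2⟩ := hN c
  have h3 : π ((c ^ N)⁻¹ * c) = 1 := by
    rw [← orderOf_eq_one_iff]
    have e1 : orderOf (π ((c ^ N)⁻¹ * c)) ∣ ℓ ^ n :=
      orderOf_dvd_of_pow_eq_one (by rw [← map_pow, h2, map_one])
    have e2 : orderOf (π ((c ^ N)⁻¹ * c)) ∣ orderOf (π c) := by
      apply orderOf_dvd_of_pow_eq_one
      rw [← map_pow]
      have e3 : ((c ^ N)⁻¹ * c) ^ orderOf (π c) = (c ^ orderOf (π c)) ^ (1 - N : ℤ) := by
        have e4 : (c ^ N)⁻¹ * c = c ^ (1 - N : ℤ) := by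
          rw [sub_eq_neg_add, zpow_add, zpow_neg, zpow_natCast, zpow_one]
        rw [e4, ← zpow_natCast, ← zpow_natCast, ← zpow_mul, ← zpow_mul, mul_comm]
      rw [e3, map_zpow, map_pow, pow_orderOf_eq_one, one_zpow]
    have e3 : Nat.Coprime (orderOf (π c)) (ℓ ^ n) := Nat.Coprime.pow_right n hc
    exact Nat.dvd_one.1 (e3 ▸ Nat.dvd_gcd e2 e1)
  have h4 := (h.ker _).1 h3
  rw [mem_zpowers_iff_mem_range_orderOf, h.ord, Finset.mem_image] at h4
  obtain ⟨j, hj, he⟩ := h4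
  refine ⟨j, Finset.mem_range.1 hj, ?_⟩
  have h5 : (c ^ N)⁻¹ * c = uC u ^ j := Subtype.ext he.symm
  have h6 : uC u ^ j * c ^ N = c ^ N * uC u ^ j :=
    ((show Commute (uC u) (c ^ N) from uC_comm u _).pow_left j).eq
  rw [h6, ← h5, mul_inv_cancel_left]

theorem card_Cu (h : Qt ℓ u π) : Nat.card (Cu u) = ℓ * Nat.card H := by
  have h1 : Nat.card π.ker = ℓ := by
    have h2 : π.ker = Subgroup.zpowers (uC u) := by
      ext c
      rw [MonoidHom.mem_ker, h.ker]
      constructor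
      · rintro ⟨k, hk⟩
        exact ⟨k, Subtype.ext hk⟩
      · rintro ⟨k, hk⟩
        exact ⟨k, congrArg Subtype.val hk⟩
    rw [h2, Nat.card_zpowers, orderOf_uC h]
  have h3 := π.ker.card_mul_index
  rw [h1, Subgroup.index_ker, MonoidHom.range_eq_top.2 h.sur, Subgroup.card_top] at h3
  exact h3.symm

open Classical in
/-- the sum over the centraliser -/
theorem sum_eq [Fintype (Cu u)] (hℓ : ℓ.Prime) (h : Qt ℓ u π) {N : ℕ}
    (hN : ∀ g : Cu u, Reg ℓ (g ^ N) ∧ ∃ n : ℕ, ((g ^ N)⁻¹ * g) ^ ℓ ^ n = 1)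
    (hN' : ∀ x y : Cu u, Commute x y → Reg ℓ x → (∃ n : ℕ, y ^ ℓ ^ n = 1) → (x * y) ^ N = x)
    {p : H → ℂ} (hp : Rc ℓ p) (κ : Cu u → ℂ) :
    ∑ c : Cu u, κ (c ^ N) * starRingEnd ℂ (p (π c)) =
      ℓ * ∑ s ∈ Finset.univ.filter (fun s : Cu u => Reg ℓ s),
        κ s * starRingEnd ℂ (p (π s)) := by
  have hinv : ∀ (j : ℕ) (s : Cu u), Reg ℓ s → (uC u ^ j * s) ^ N = s := by
    intro j s hs
    have hc : Commute s (uC u ^ j) := ((show Commute (uC u) s from uC_comm u s).pow_left j).symm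
    rw [← hc.eq]
    refine hN' s _ hc hs ⟨1, ?_⟩
    rw [pow_one, ← pow_mul, mul_comm, pow_mul, ← orderOf_uC h, pow_orderOf_eq_one, one_pow]
  have h1 : ∑ c : Cu u, κ (c ^ N) * starRingEnd ℂ (p (π c)) =
      ∑ c ∈ Finset.univ.filter (fun c : Cu u => Reg ℓ (π c)),
        κ (c ^ N) * starRingEnd ℂ (p (π c)) := by
    rw [Finset.sum_filter]
    refine Finset.sum_congr rfl fun c _ => ?_
    split_ifs with hc
    · rfl
    · rw [hp.sg _ hc, map_zero, mul_zero]
  have h2 : ∑ c ∈ Finset.univ.filter (fun c : Cu u => Reg ℓ (π c)),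
        κ (c ^ N) * starRingEnd ℂ (p (π c)) =
      ∑ x ∈ Finset.range ℓ ×ˢ Finset.univ.filter (fun s : Cu u => Reg ℓ s),
        κ x.2 * starRingEnd ℂ (p (π x.2)) := by
    symm
    refine Finset.sum_bij (fun x _ => uC u ^ x.1 * x.2) ?_ ?_ ?_ ?_
    · rintro ⟨j, s⟩ hx
      simp only [Finset.mem_product, Finset.mem_filter, Finset.mem_univ, true_and] at hx ⊢
      rw [pi_pow_uC h]
      exact Nat.Coprime.coprime_dvd_left (orderOf_map_dvd π s) hx.2
    · rintro ⟨j, s⟩ hx ⟨j', s'⟩ hx' he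
      simp only [Finset.mem_product, Finset.mem_filter, Finset.mem_univ, true_and,
        Finset.mem_range] at hx hx' he
      have e1 : s = s' := by
        have := congrArg (· ^ N) he
        simp only [hinv j s hx.2, hinv j' s' hx'.2] at this
        exact this
      rw [e1] at he
      have e2 := mul_right_cancel he
      have e3 := pow_injOn_Iio_orderOf (x := uC u)
        (show j ∈ Set.Iio (orderOf (uC u)) by rw [orderOf_uC h]; exact hx.1)
        (show j' ∈ Set.Iio (orderOf (uC u)) by rw [orderOf_uC h]; exact hx'.1) e2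
      rw [e1, e3]
    · intro c hc
      simp only [Finset.mem_filter, Finset.mem_univ, true_and] at hc
      obtain ⟨j, hj, he⟩ := exists_decomp hℓ h hN hc
      refine ⟨(j, c ^ N), ?_, he.symm⟩
      simp only [Finset.mem_product, Finset.mem_filter, Finset.mem_univ, true_and,
        Finset.mem_range]
      exact ⟨hj, (hN c).1⟩
    · rintro ⟨j, s⟩ hx
      simp only [Finset.mem_product, Finset.mem_filter, Finset.mem_univ, true_and] at hx
      rw [hinv j s hx.2, pi_pow_uC h]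
  rw [h1, h2, Finset.sum_product]
  show ∑ _x ∈ Finset.range ℓ, ∑ s ∈ Finset.univ.filter (fun s : Cu u => Reg ℓ s),
        κ s * starRingEnd ℂ (p (π s)) = _
  rw [Finset.sum_const, Finset.card_range, nsmul_eq_mul]

end main

theorem int_ (ada : AdaStmt) (prt : PrtStmt) : IntStmt := by
  classical
  intro ℓ hℓ G H _ _ _ _ u π h p hp hpc χ hχ ζ hζ
  have := Fintype.ofFinite (Cu u)
  obtain ⟨N, hN, hN'⟩ := prt ℓ (Cu u)
  have hpos : 0 < ℓ := hℓ.out.pos
  have hH : (Nat.card H : ℂ) ≠ 0 := by exact_mod_cast Nat.card_pos.ne'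
  have hℓ0 : (ℓ : ℂ) ≠ 0 := by exact_mod_cast hpos.ne'
  -- the statement for virtual characters of the centraliser
  have key : ∀ f ∈ ZI (Cu u), ∃ m : ℕ → ℤ, ∀ j : ℕ,
      (Nat.card H : ℂ)⁻¹ * ∑ s ∈ Finset.univ.filter (fun s : Cu u => Reg ℓ s),
        f (uC u ^ j * s) * starRingEnd ℂ (p (π s)) =
        ∑ i ∈ Finset.range ℓ, (m i : ℂ) * ζ ^ (i * j) := by
    intro f hf
    unfold ZI at hf
    induction hf using AddSubgroup.closure_induction with
    | mem κ hκ =>
      obtain ⟨i, hi, hk⟩ := cent_pow hκ (uC_comm u) hpos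
        (by rw [← orderOf_uC h]; exact pow_orderOf_eq_one _) hζ
      obtain ⟨m, hm⟩ := ada (Cu u) N κ (AddSubgroup.subset_closure hκ) _ (zi_infl h.sur hp)
      have e1 : (Nat.card H : ℂ)⁻¹ * ∑ s ∈ Finset.univ.filter (fun s : Cu u => Reg ℓ s),
          κ s * starRingEnd ℂ (p (π s)) = m := by
        rw [← hm, ipn, finsum_eq_sum_of_fintype, sum_eq hℓ.out h hN hN' hpc κ, card_Cu h]
        push_cast
        field_simp
      refine ⟨fun k => if k = i then m else 0, fun j => ?_⟩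
      rw [Finset.sum_eq_single i]
      · show _ = ((if i = i then m else 0 : ℤ) : ℂ) * ζ ^ (i * j)
        rw [if_pos rfl, ← e1]
        simp only [hk, Finset.mul_sum, Finset.sum_mul]
        refine Finset.sum_congr rfl fun s _ => ?_
        ring
      · intro k _ hki
        show ((if k = i then m else 0 : ℤ) : ℂ) * ζ ^ (k * j) = 0
        rw [if_neg hki, Int.cast_zero, zero_mul]
      · intro hni
        exact absurd (Finset.mem_range.2 hi) hni
    | zero =>
      refine ⟨0, fun j => ?_⟩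
      simp
    | add f g _ _ hf hg =>
      obtain ⟨m, hm⟩ := hf
      obtain ⟨m', hm'⟩ := hg
      refine ⟨m + m', fun j => ?_⟩
      simp only [Pi.add_apply, add_mul, Finset.sum_add_distrib, mul_add, Int.cast_add]
      rw [hm, hm']
    | neg f _ hf =>
      obtain ⟨m, hm⟩ := hf
      refine ⟨-m, fun j => ?_⟩
      simp only [Pi.neg_apply, neg_mul, Finset.sum_neg_distrib, mul_neg, Int.cast_neg]
      rw [hm]
  obtain ⟨m, hm⟩ := key _ (zi_res (Cu u) hχ)
  refine ⟨m, fun j => ?_⟩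
  rw [← hm j, Av, finsum_eq_sum_of_fintype, Finset.sum_filter]
  refine congrArg ((Nat.card H : ℂ)⁻¹ * ·) (Finset.sum_congr rfl fun s _ => ?_)
  rw [finsum_eq_if]
  rfl

end Pool.Agent.PP.K9.H77
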